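import Pool.Agent.Q52.SecW.Loc

/-!
# The weak `p`-adic section conjecture for all twists of a superelliptic curve with good reduction

Let `ℓ` be a prime number and `m ≥ 3`.  Let `k` be a finite extension of `ℚ_p`, `p ≠ ℓ`, or more
generally the field of fractions of a henselian discrete valuation ring `A` of characteristic zero with
finite residue field, in which `ℓ` is invertible.  Let `f ∈ A[x]` be a polynomial of degree `m` with
invertible leading coefficient and separable reduction.  So `y^ℓ = f(x)` is the equation of a curve
with good reduction, and we consider all its twists of order `ℓ`, the curves `C_a`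

  `a y^ℓ = f(x)`,  `a ∈ kˣ` arbitrary.

**Theorem.**  There is a number `q₀` which depends only on `ℓ` and `m`, such that the following holds if
the residue field of `k` has at least `q₀` elements.  If the fundamental group of `C_a`, or of any
open subcurve of it, or the absolute Galois group of its function field, or the fundamental group of
any smooth curve that dominates `C_a`, or the geometrically pro-`ℓ` fundamental group of `C_a` has a
section over `G_k`, then `C_a` has a `k`-rational point.

So the weak form of the `p`-adic section conjecture (there is a section if and only if there is a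
rational point) holds for all these twists, `a ∈ kˣ`, and, since `q₀` depends only on `ℓ` and `m`, over
all finite extensions of `k` at the same time.  If `f` has no root in `k` and the valuation of `a` is
not divisible by `ℓ`, then there is no point, and so no section: in this case the section conjecture
holds for `C_a` and for all smooth curves that dominate it.  These curves may have closed points of
coprime degrees, for instance if `f` is the product of irreducible polynomials of degrees 3 and 5
and `ℓ = 2`, so that no obstruction from the period and the index is available.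

The case where the valuation of `a` is not divisible by `ℓ` is the theorem of
`MP_c385f6_ag.ProEllSections` of the starting library and its local theorem for all the fundamental
groups (helper157).  Here all the twists are treated, and the existence of points is proved for all
the other twists.

The fundamental group is described through valuations.  Let `U` be a smooth geometrically connected
curve over `k` with function field `F`, let `Ω` be an algebraic closure of `F`, and let `F_U` be the
maximal extension of `F` inside `Ω` which is unramified over the closed points of `U`, that is, over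
their local rings, which are valuation rings of `F`.  Then `π₁(U) = Gal(F_U/F)`, and the map
`π₁(U) → G_k` is the restriction of automorphisms to the algebraic closure of `k` in `Ω`.

Proof.  If `ℓ` does not divide `m`, then there is a rational point at infinity.  If the reduction of
`f` has a root, it lifts to a root `e ∈ k` of `f`, and `(e, 0)` is a rational point.  If `ℓ` divides `m`,
the reduction of `f` has no root and the valuation of `a` is not divisible by `ℓ`, then the local
theorem shows that there is no section.  There remains the case where the valuation of `a` is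
divisible by `ℓ`, so that we can assume that `a` is a unit.  Then the curve has good reduction.  By
Stepanov's method (the proof of Bombieri and Schmidt, in the form of helper435, changed such that `f`
need not have a root in the finite field) the equation has a solution with `y ≠ 0` in the residue
field if this field is large, and by Hensel's lemma there is a solution in `A`.
-/

open Polynomial

namespace Pool.Agent.Results.MP_c385f6_ag.AllTwists

section definitions

variable (ℓ : ℕ) (k F Ω : Type) [Field k] [Field F] [Field Ω] [Algebra k F] [Algebra F Ω]
  [Algebra k Ω]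

/-- The inertia group of the valuation ring `W` of `Ω`, as a subgroup of `Gal(Ω/F)`: the
automorphisms of `Ω` over `F` that map `W` onto itself and act as the identity on its residue
field. -/
noncomputable def inertia (W : ValuationSubring Ω) : Subgroup (Ω ≃ₐ[F] Ω) :=
  (W.inertiaSubgroup F).map (W.decompositionSubgroup F).subtype

/-- `F_U`, for a set `U` of valuation rings of `F`: the elements of `Ω` fixed by the inertia groups
of all valuation rings `W` of `Ω` with `W ∩ F ∈ U`.  If `Ω` is an algebraic closure of a field `F`
of characteristic zero, this is the maximal extension of `F` in `Ω` unramified over `U`. -/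
noncomputable def unramified (U : Set (ValuationSubring F)) : IntermediateField F Ω :=
  ⨅ W : {W : ValuationSubring Ω // W.comap (algebraMap F Ω) ∈ U},
    IntermediateField.fixedField (inertia F Ω W.1)

/-- `k̄ F`, the compositum of `F` and of the algebraic closure of `k` in `Ω`. -/
noncomputable def geomField : IntermediateField F Ω :=
  IntermediateField.adjoin F (algebraicClosure k Ω : Set Ω)

/-- The algebraic extension `L` of `K` in `Ω` is unramified at all valuation rings of `Ω` that
contain `k`: every nonzero element of `L` has the same valuation as an element of `K`.  (If `K` is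
a function field of one variable over the algebraic closure of `k` and `k` has characteristic zero,
then this says that `L/K` is unramified over all points of the smooth projective curve.) -/
def Unramified {k K Ω : Type} [Field k] [Field K] [Field Ω] [Algebra k Ω] [Algebra K Ω]
    (L : IntermediateField K Ω) : Prop :=
  ∀ W : ValuationSubring Ω, (∀ c : k, algebraMap k Ω c ∈ W) → ∀ z ∈ L, z ≠ 0 →
    ∃ t : K, t ≠ 0 ∧ z / algebraMap K Ω t ∈ W ∧ (z / algebraMap K Ω t)⁻¹ ∈ W

/-- `L/K` is a finite Galois extension whose degree is a power of `ℓ`. -/
def FiniteProEll (ℓ : ℕ) {K Ω : Type} [Field K] [Field Ω] [Algebra K Ω]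
    (L : IntermediateField K Ω) : Prop :=
  FiniteDimensional K L ∧ IsGalois K L ∧ ∃ m : ℕ, Module.finrank K L = ℓ ^ m

/-- The maximal unramified pro-`ℓ` extension of `K` in `Ω`: the compositum of the finite Galois
extensions of `K` whose degree is a power of `ℓ` and which are unramified. -/
noncomputable def maxProEll (ℓ : ℕ) (k K Ω : Type) [Field k] [Field K] [Field Ω] [Algebra k Ω]
    [Algebra K Ω] : IntermediateField K Ω :=
  ⨆ L : {L : IntermediateField K Ω // FiniteProEll ℓ L ∧ Unramified (k := k) L}, L.1

/-- `M`, the maximal unramified pro-`ℓ` extension of `k̄ F` in `Ω`, as an extension of `F`. -/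
noncomputable def proEllField : IntermediateField F Ω :=
  (maxProEll ℓ k (geomField k F Ω) Ω).restrictScalars F

/-- The map `τ : M → M` acts as `σ : K → K` on the elements that the fields `K` and `M` have in
common when they are regarded as subfields of `Ω` through `i` and `j`. -/
def ActsAs {K M Ω : Type} [Field K] [Field M] [Field Ω] (i : K →+* Ω) (j : M →+* Ω) (σ : K → K)
    (τ : M → M) : Prop :=
  ∀ c z, j z = i c → j (τ z) = i (σ c)

/-- Let `k ⊆ K ⊆ Ω` and `F ⊆ N ⊆ Ω` be fields.  A splitting of `Gal(N/F) → Gal(K/k)`: a continuous
homomorphism `s` from `Gal(K/k)` to `Gal(N/F)` such that `s(σ)` acts as `σ` on the elements of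
`K ∩ N`. -/
structure Splitting (K N : Type) [Field K] [Field N] [Algebra k K] [Algebra F N] [Algebra K Ω]
    [Algebra N Ω] where
  /-- the homomorphism `Gal(K/k) → Gal(N/F)` -/
  toHom : (K ≃ₐ[k] K) →* (N ≃ₐ[F] N)
  cont : Continuous toHom
  compat : ∀ σ : K ≃ₐ[k] K, ActsAs (algebraMap K Ω) (algebraMap N Ω) σ (toHom σ)

/-- There are no sections of `Gal(N/F) → G_k`, where `G_k = Gal(k̄/k)` and `k̄` is the algebraic
closure of `k` in `Ω`.  For `N = F_U` these are the sections of `π₁(U) → G_k`. -/
def NoSplitting (N : IntermediateField F Ω) : Prop :=
  IsEmpty (Splitting k F Ω (algebraicClosure k Ω) N)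

end definitions

section curves

variable {k : Type} [Field k]

/-- The smooth projective curve with the affine equation `a yⁿ = f(x)` has a point over `k`: in the
affine part or at infinity. -/
def HasPoint (n : ℕ) (a : k) (f : k[X]) : Prop :=
  (∃ x y : k, a * y ^ n = f.eval x) ∨ ∃ r : k, a * r ^ Nat.gcd n f.natDegree = f.leadingCoeff

/-- Let `F` be any field over `k` that contains a point `(x, y)` of the curve `a yⁿ = f(x)`, for
instance the function field of the curve, and let `Ω` be an algebraic closure of `F`.  Then for
every set `U` of valuation rings of `F` over `k` there is no section of `π₁(U) → G_k`.  If `F` is the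
function field of the curve, such `U` are given by the smooth projective curve and by all its open
subcurves. -/
def NoSection (n : ℕ) (a : k) (f : k[X]) : Prop :=
  ∀ (F Ω : Type) [Field F] [Field Ω] [Algebra k F] [Algebra F Ω] [Algebra k Ω]
    [IsScalarTower k F Ω] [IsAlgClosure F Ω] (x y : F) (U : Set (ValuationSubring F)),
    algebraMap k F a * y ^ n = aeval x f → (∀ O ∈ U, ∀ c : k, algebraMap k F c ∈ O) →
      NoSplitting k F Ω (unramified F Ω U)

/-- Let `F = k(x, y)` be the function field of the curve `a y^ℓ = f(x)`, let `Ω` be an algebraic
closure of `F`, and let `M` be the maximal unramified pro-`ℓ` extension of `k̄ F`.  For all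
extensions `N ⊇ M` of `F` in `Ω`, in particular for `N = M`, there is no section of
`Gal(N/F) → G_k`. -/
def NoProEllSection (ℓ : ℕ) (a : k) (f : k[X]) : Prop :=
  ∀ (F Ω : Type) [Field F] [Field Ω] [Algebra k F] [Algebra F Ω] [Algebra k Ω]
    [IsScalarTower k F Ω] [IsAlgClosure F Ω] (x y : F), Transcendental k x →
    algebraMap k F a * y ^ ℓ = aeval x f →
    IntermediateField.adjoin k {x, y} = (⊤ : IntermediateField k F) →
    ∀ N : IntermediateField F Ω, proEllField ℓ k F Ω ≤ N → NoSplitting k F Ω N

end curves

lemma iSup_congr_prop {α : Type} [CompleteLattice α] {P Q : α → Prop} (h : ∀ L, P L ↔ Q L) :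
    (⨆ L : {L // P L}, L.1) = ⨆ L : {L // Q L}, L.1 := by
  have h1 : P = Q := funext fun L => propext (h L)
  subst h1
  rfl

lemma proEll_eq (ℓ : ℕ) (k F Ω : Type) [Field k] [Field F] [Field Ω] [Algebra k F] [Algebra F Ω]
    [Algebra k Ω] : proEllField ℓ k F Ω = Pool.Agent.Y157.PS.geomPro ℓ k F Ω := by
  unfold proEllField Pool.Agent.Y157.PS.geomPro maxProEll Pool.Agent.Y157.PS.maxPro
  congr 1
  refine iSup_congr_prop fun L => ?_
  constructor
  · rintro ⟨⟨h1, h2, h3⟩, h4⟩
    refine ⟨⟨h1, h2, h3⟩, fun W hW z hz hz0 => ?_⟩
    obtain ⟨t, ht, h5, h6⟩ := h4 W hW z hz hz0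
    exact ⟨t, ht, div_ne_zero hz0 ((_root_.map_ne_zero _).2 ht), h5, h6⟩
  · rintro ⟨⟨h1, h2, h3⟩, h4⟩
    refine ⟨⟨h1, h2, h3⟩, fun W hW z hz hz0 => ?_⟩
    obtain ⟨t, ht, -, h5, h6⟩ := h4 W hW z hz hz0
    exact ⟨t, ht, h5, h6⟩

lemma of_fine {k : Type} [Field k] (l : ℕ) (a : k) (f : k[X])
    (h : Pool.Agent.Y157.PS.FineP l a f) (n : ℕ) (hn : l ∣ n) : NoSection n a f := by
  obtain ⟨-, h1, -, -⟩ := h
  obtain ⟨n', rfl⟩ := hn
  intro F Ω _ _ _ _ _ _ _ x y U hxy hU
  have hcl : IsAlgClosed Ω := IsAlgClosure.isAlgClosed F
  have halg : Algebra.IsAlgebraic F Ω := IsAlgClosure.isAlgebraic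
  have h4 := h1 F Ω U hU x (y ^ n') (by rw [← hxy, ← pow_mul, mul_comm n' l])
  exact ⟨fun s => h4.false ⟨s.toHom, s.cont, s.compat⟩⟩

/-- Let `ℓ` be a prime number and `m ≥ 3`.  There is `q₀`, depending only on `ℓ` and `m`, such that the
following holds.  Let `A` be a henselian discrete valuation ring with finite residue field of at
least `q₀` elements, whose field of fractions `k` has characteristic zero and in which `ℓ` is
invertible, for instance the ring of integers of a finite extension `k` of `ℚ_p`, `p ≠ ℓ`.  Let
`f ∈ A[x]` be a polynomial of degree `m` with invertible leading coefficient and separable reduction,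
and let `a ∈ k`, `a ≠ 0`.  Then the smooth projective curve `a y^ℓ = f(x)` has a `k`-rational point, or
neither the fundamental groups of its open subcurves nor those of the smooth curves that dominate it
nor its geometrically pro-`ℓ` fundamental group have a section. -/
theorem result (ℓ : ℕ) (hℓ : ℓ.Prime) (m : ℕ) (hm : 3 ≤ m) :
    ∃ q₀ : ℕ, ∀ (A k : Type) [CommRing A] [IsDomain A] [IsDiscreteValuationRing A]
      [HenselianLocalRing A] [Finite (IsLocalRing.ResidueField A)] [Field k] [CharZero k]
      [Algebra A k] [IsFractionRing A k], IsUnit (ℓ : A) →
      q₀ ≤ Nat.card (IsLocalRing.ResidueField A) →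
      ∀ f : A[X], IsUnit f.leadingCoeff → f.natDegree = m →
        (f.map (IsLocalRing.residue A)).Separable → ∀ a : k, a ≠ 0 →
        HasPoint ℓ a (f.map (algebraMap A k)) ∨
          ((∀ n : ℕ, ℓ ∣ n → NoSection n a (f.map (algebraMap A k))) ∧
            NoProEllSection ℓ a (f.map (algebraMap A k))) := by
  obtain ⟨q₀, hq₀⟩ := Pool.Agent.Q52.SecW.weak_local ℓ hℓ m hm
  refine ⟨q₀, ?_⟩
  intro A k _ _ _ _ _ _ _ _ _ hℓA hq f hlc hdeg hs a ha
  have hdegk : (f.map (algebraMap A k)).natDegree = m := by
    rw [natDegree_map_eq_of_injective (IsFractionRing.injective A k), hdeg]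
  rcases hq₀ A k hℓA hq f hlc hdeg hs a ha with h | ⟨-, h⟩
  · left
    rcases h with h | h
    · exact Or.inl h
    · refine Or.inr ?_
      rw [hdegk]
      exact h
  · right
    refine ⟨fun n hn => of_fine ℓ _ _ h n hn, ?_⟩
    intro F Ω _ _ _ _ _ _ _ x y hx hxy hF N hN
    have hcl : IsAlgClosed Ω := IsAlgClosure.isAlgClosed F
    have halg : Algebra.IsAlgebraic F Ω := IsAlgClosure.isAlgebraic
    rw [proEll_eq] at hN
    exact ⟨fun s => h.1 F Ω x y hx hxy hF N hN s.toHom s.cont s.compat⟩

end Pool.Agent.Results.MP_c385f6_ag.AllTwists
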